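import Mathlib

set_option autoImplicit false

namespace Pool.Agent.H80.TS

open Finset

/-- A label: a triple of indices. -/
abbrev Lab (n : ℕ) : Type := Fin 3 → Fin n

theorem third_coord : ∀ d d' : Fin 3, ¬ d = d' →
    ∃ f : Fin 3, (d = f + 1 ∧ d' = f + 2) ∨ (d = f + 2 ∧ d' = f + 1) := by
  decide

section comb

variable {n : ℕ} {ι : Type}

/-- The vectors `c v` (`v : ι`) realise each label `t ∈ P` as a difference: `c (src t) - c (tgt t)`
is `μ t` times the indicator of `t`, `μ t ≠ 0`. -/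
structure Cover (c : ι → Fin 3 → Fin n → ℝ) (P : Finset (Lab n)) (src tgt : Lab n → ι)
    (μ : Lab n → ℝ) : Prop where
  ne : ∀ t ∈ P, μ t ≠ 0
  eq : ∀ t ∈ P, ∀ d i, c (src t) d i - c (tgt t) d i = if i = t d then μ t else 0

variable {c : ι → Fin 3 → Fin n → ℝ} {P : Finset (Lab n)} {src tgt : Lab n → ι} {μ : Lab n → ℝ}

theorem Cover.src_ne_tgt (h : Cover c P src tgt μ) {t : Lab n} (ht : t ∈ P) : src t ≠ tgt t := by
  intro he
  have h1 := h.eq t ht 0 (t 0)
  rw [he, sub_self, if_pos rfl] at h1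
  exact h.ne t ht h1.symm

theorem Cover.inj (h : Cover c P src tgt μ) {t t' : Lab n} (ht : t ∈ P) (ht' : t' ∈ P)
    (h1 : src t = src t') (h2 : tgt t = tgt t') : t = t' := by
  funext d
  have h3 := h.eq t ht d (t d)
  have h4 := h.eq t' ht' d (t d)
  rw [h1, h2, h4, if_pos rfl] at h3
  by_contra hne
  rw [if_neg hne] at h3
  exact h.ne t ht h3.symm

variable [DecidableEq ι]

/-- Incidence. -/
def Inc (src tgt : Lab n → ι) (t : Lab n) (v : ι) : Prop := v = src t ∨ v = tgt t

instance (src tgt : Lab n → ι) (t : Lab n) (v : ι) : Decidable (Inc src tgt t v) := by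
  unfold Inc; infer_instance

/-- The other endpoint. -/
def oth (src tgt : Lab n → ι) (t : Lab n) (v : ι) : ι := if v = src t then tgt t else src t

theorem Cover.oth_oth (h : Cover c P src tgt μ) {t : Lab n} (ht : t ∈ P) {v : ι}
    (hv : Inc src tgt t v) : oth src tgt t (oth src tgt t v) = v := by
  have hne := h.src_ne_tgt ht
  unfold oth
  rcases hv with rfl | rfl
  · rw [if_pos rfl, if_neg hne.symm]
  · rw [if_neg hne.symm, if_pos rfl]

theorem Cover.oth_eq (h : Cover c P src tgt μ) {t : Lab n} (ht : t ∈ P) {v : ι}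
    (hv : Inc src tgt t v) : ∃ ν : ℝ, ν ≠ 0 ∧ ∀ d i,
      c (oth src tgt t v) d i - c v d i = if i = t d then ν else 0 := by
  have hne := h.src_ne_tgt ht
  unfold oth
  rcases hv with rfl | rfl
  · refine ⟨-μ t, neg_ne_zero.2 (h.ne t ht), fun d i => ?_⟩
    rw [if_pos rfl, ← neg_sub, h.eq t ht d i]
    split_ifs <;> simp
  · refine ⟨μ t, h.ne t ht, fun d i => ?_⟩
    rw [if_neg hne.symm, h.eq t ht d i]

variable [Fintype ι]

/-- Paths of length two whose labels differ in all coordinates. -/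
def paths (P : Finset (Lab n)) (src tgt : Lab n → ι) : Finset (ι × Lab n × Lab n) :=
  (univ ×ˢ (P ×ˢ P)).filter (fun x => Inc src tgt x.2.1 x.1 ∧ Inc src tgt x.2.2 x.1 ∧
    ∀ d, x.2.1 d ≠ x.2.2 d)

theorem Cover.card_paths (h : Cover c P src tgt μ) :
    (paths P src tgt).card ≤ 8 * Fintype.card ι ^ 2 := by
  have hcard : Fintype.card (ι × ι × (Fin 3 → Bool)) = 8 * Fintype.card ι ^ 2 := by
    simp only [Fintype.card_prod, Fintype.card_fun, Fintype.card_bool, Fintype.card_fin]
    ring
  rw [← hcard, ← Finset.card_univ]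
  refine Finset.card_le_card_of_injOn
    (fun x => (oth src tgt x.2.1 x.1, oth src tgt x.2.2 x.1,
      fun d => decide (x.2.1 d < x.2.2 d))) (fun _ _ => mem_univ _) ?_
  rintro ⟨v, s, t⟩ hx ⟨v', s', t'⟩ hx' heq
  simp only [paths, coe_filter, mem_product, mem_univ, true_and, Set.mem_ofPred_eq] at hx hx'
  obtain ⟨⟨hs, ht⟩, hvs, hvt, hne⟩ := hx
  obtain ⟨⟨hs', ht'⟩, hvs', hvt', hne'⟩ := hx'
  simp only [Prod.mk.injEq] at heq
  obtain ⟨h1, h2, h3⟩ := heq
  obtain ⟨ν, hν, hν'⟩ := h.oth_eq hs hvs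
  obtain ⟨κ, hκ, hκ'⟩ := h.oth_eq ht hvt
  obtain ⟨ν', hν1, hν1'⟩ := h.oth_eq hs' hvs'
  obtain ⟨κ', hκ1, hκ1'⟩ := h.oth_eq ht' hvt'
  have key : ∀ d i, (i = s d ∨ i = t d) ↔ (i = s' d ∨ i = t' d) := by
    intro d i
    have e1 : c (oth src tgt t v) d i - c (oth src tgt s v) d i =
        (if i = t d then κ else 0) - (if i = s d then ν else 0) := by
      rw [← hκ', ← hν']; ring
    have e2 : c (oth src tgt t v) d i - c (oth src tgt s v) d i =
        (if i = t' d then κ' else 0) - (if i = s' d then ν' else 0) := by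
      rw [h1, h2, ← hκ1', ← hν1']; ring
    have n1 := hne d
    have n2 := hne' d
    rw [e1] at e2
    by_cases a1 : i = s d <;> by_cases a2 : i = t d <;> by_cases a3 : i = s' d <;>
      by_cases a4 : i = t' d <;> simp_all
  have hst : s = s' ∧ t = t' := by
    have hd : ∀ d, s d = s' d ∧ t d = t' d := by
      intro d
      have k1 := (key d (s d)).1 (Or.inl rfl)
      have k2 := (key d (t d)).1 (Or.inr rfl)
      have n1 := hne d
      have n2 := hne' d
      have h4 := congrFun h3 d
      simp only [decide_eq_decide] at h4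
      rcases k1 with k1 | k1 <;> rcases k2 with k2 | k2
      · exact absurd (k1.trans k2.symm) n1
      · exact ⟨k1, k2⟩
      · exfalso
        rw [k1, k2] at h4
        rcases lt_trichotomy (s' d) (t' d) with h5 | h5 | h5
        · exact absurd (h4.2 h5) (not_lt.2 h5.le)
        · exact n2 h5
        · exact absurd (h4.1 h5) (not_lt.2 h5.le)
      · exact absurd (k1.trans k2.symm) n1
    exact ⟨funext fun d => (hd d).1, funext fun d => (hd d).2⟩
  obtain ⟨rfl, rfl⟩ := hst
  have hv : v = v' := by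
    rw [← h.oth_oth hs hvs, ← h.oth_oth hs hvs', h1]
  rw [hv]

/-- Labels of the edges at `v` with coordinate `d` equal to `a`. -/
def cls (P : Finset (Lab n)) (src tgt : Lab n → ι) (d : Fin 3) (a : Fin n) (v : ι) :
    Finset (Lab n) := P.filter (fun t => Inc src tgt t v ∧ t d = a)

/-- The vertices at which the class `(d, a)` is heavy. -/
def hvy (P : Finset (Lab n)) (src tgt : Lab n → ι) (θ : ℕ) (d : Fin 3) (a : Fin n) : Finset ι :=
  univ.filter (fun v => θ ≤ (cls P src tgt d a v).card)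

theorem sum_inc_le (P : Finset (Lab n)) (src tgt : Lab n → ι) :
    ∑ v : ι, (P.filter (fun t => Inc src tgt t v)).card ≤ 2 * P.card := by
  have h1 : ∀ v : ι, (P.filter (fun t => Inc src tgt t v)).card =
      ∑ t ∈ P, if Inc src tgt t v then 1 else 0 := by
    intro v
    rw [Finset.card_filter]
  simp only [h1]
  rw [Finset.sum_comm, Finset.card_eq_sum_ones, Finset.mul_sum]
  refine Finset.sum_le_sum fun t _ => ?_
  rw [← Finset.card_filter, mul_one]
  have : (univ.filter (fun v => Inc src tgt t v)) ⊆ {src t, tgt t} := by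
    intro v hv
    simp only [mem_filter, mem_univ, true_and] at hv
    simpa [Inc] using hv
  exact (Finset.card_le_card this).trans Finset.card_le_two

omit [Fintype ι] in
theorem sum_cls (P : Finset (Lab n)) (src tgt : Lab n → ι) (d : Fin 3) (v : ι) :
    ∑ a : Fin n, (cls P src tgt d a v).card = (P.filter (fun t => Inc src tgt t v)).card := by
  rw [Finset.card_eq_sum_card_fiberwise (f := fun t : Lab n => t d) (t := univ)
    (fun _ _ => mem_univ _)]
  refine Finset.sum_congr rfl fun a _ => ?_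
  congr 1
  ext t
  simp only [cls, mem_filter]
  tauto

theorem sum_hvy (P : Finset (Lab n)) (src tgt : Lab n → ι) (θ : ℕ) (d : Fin 3) :
    θ * ∑ a : Fin n, (hvy P src tgt θ d a).card ≤ 2 * P.card := by
  calc θ * ∑ a : Fin n, (hvy P src tgt θ d a).card
      = ∑ a : Fin n, ∑ v ∈ hvy P src tgt θ d a, θ := by
        rw [Finset.mul_sum]
        refine Finset.sum_congr rfl fun a _ => ?_
        rw [Finset.sum_const, smul_eq_mul, mul_comm]
    _ ≤ ∑ a : Fin n, ∑ v : ι, (cls P src tgt d a v).card := by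
        refine Finset.sum_le_sum fun a _ => ?_
        refine (Finset.sum_le_sum (f := fun _ => θ) (g := fun v => (cls P src tgt d a v).card)
          fun v hv => (Finset.mem_filter.1 hv).2).trans ?_
        exact Finset.sum_le_sum_of_subset (Finset.subset_univ _)
    _ = ∑ v : ι, ∑ a : Fin n, (cls P src tgt d a v).card := Finset.sum_comm
    _ = ∑ v : ι, (P.filter (fun t => Inc src tgt t v)).card :=
        Finset.sum_congr rfl fun v _ => sum_cls P src tgt d v
    _ ≤ 2 * P.card := sum_inc_le P src tgt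

omit [Fintype ι] in
/-- Edges in a line with both ends in `Z`. -/
theorem Cover.card_line (h : Cover c P src tgt μ) (f : Fin 3) (a a' : Fin n) (Z : Finset ι) :
    (P.filter (fun t => t (f + 1) = a ∧ t (f + 2) = a' ∧ src t ∈ Z ∧ tgt t ∈ Z)).card ≤
      Z.card := by
  classical
  set B := P.filter (fun t => t (f + 1) = a ∧ t (f + 2) = a' ∧ src t ∈ Z ∧ tgt t ∈ Z) with hB
  have hcov : ∀ x y : Lab n, x f = y f → x (f + 1) = y (f + 1) → x (f + 2) = y (f + 2) →
      x = y := by
    intro x y h1 h2 h3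
    funext d
    fin_cases f <;> fin_cases d <;> first | exact h1 | exact h2 | exact h3
  -- the span of the vectors in `Z`, coordinate `f`
  let W : Submodule ℝ (Fin n → ℝ) := Submodule.span ℝ (Z.image (fun v => c v f) : Set (Fin n → ℝ))
  have hW : Module.finrank ℝ W ≤ Z.card :=
    (finrank_span_finset_le_card _).trans Finset.card_image_le
  -- basis vectors
  have hmem : ∀ t ∈ B, (Pi.single (t f) (1 : ℝ) : Fin n → ℝ) ∈ W := by
    intro t ht
    obtain ⟨htP, _, _, hs, hg⟩ := Finset.mem_filter.1 ht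
    have h1 : c (src t) f ∈ W := Submodule.subset_span (by
      rw [Finset.coe_image]; exact ⟨src t, hs, rfl⟩)
    have h2 : c (tgt t) f ∈ W := Submodule.subset_span (by
      rw [Finset.coe_image]; exact ⟨tgt t, hg, rfl⟩)
    have h3 := W.smul_mem (μ t)⁻¹ (W.sub_mem h1 h2)
    convert h3 using 1
    funext i
    have h4 := h.eq t htP f i
    simp only [Pi.smul_apply, Pi.sub_apply, smul_eq_mul]
    rw [h4]
    by_cases hi : i = t f
    · subst hi
      simp [h.ne t htP]
    · simp [hi]
  let I : Finset (Fin n) := B.image (fun t => t f)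
  have hI : I.card = B.card := by
    refine Finset.card_image_of_injOn ?_
    intro t ht t' ht' heq
    obtain ⟨_, h1, h2, _⟩ := Finset.mem_filter.1 ht
    obtain ⟨_, h1', h2', _⟩ := Finset.mem_filter.1 ht'
    exact hcov t t' heq (h1.trans h1'.symm) (h2.trans h2'.symm)
  have hli : LinearIndependent ℝ (fun i : I => (Pi.single i.1 (1 : ℝ) : Fin n → ℝ)) := by
    have h5 := (Pi.basisFun ℝ (Fin n)).linearIndependent
    have h6 := h5.comp (fun i : I => i.1) Subtype.val_injective
    convert h6 using 1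
    funext i
    simp
  let g : I → W := fun i => ⟨Pi.single i.1 (1 : ℝ), by
    obtain ⟨t, ht, hti⟩ := Finset.mem_image.1 i.2
    rw [← hti]
    exact hmem t ht⟩
  have hg : LinearIndependent ℝ g := by
    refine LinearIndependent.of_comp W.subtype ?_
    exact hli
  have h7 := hg.fintype_card_le_finrank
  rw [Fintype.card_coe, hI] at h7
  exact h7.trans hW

omit [Fintype ι] in
/-- Edges in a plane with both ends in `Z`. -/
theorem Cover.card_plane (h : Cover c P src tgt μ) (d : Fin 3) (a : Fin n) (Z : Finset ι) :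
    (P.filter (fun t => t d = a ∧ src t ∈ Z ∧ tgt t ∈ Z)).card ≤ n * Z.card := by
  set B := P.filter (fun t => t d = a ∧ src t ∈ Z ∧ tgt t ∈ Z) with hB
  have h1 : B.card ≤ n ^ 2 := by
    have : (univ : Finset (Fin n × Fin n)).card = n ^ 2 := by
      simp [Finset.card_univ, sq]
    rw [← this]
    refine Finset.card_le_card_of_injOn (fun t => (t (d + 1), t (d + 2)))
      (fun _ _ => mem_univ _) ?_
    intro x hx y hy hxy
    obtain ⟨_, h1, _⟩ := Finset.mem_filter.1 hx
    obtain ⟨_, h1', _⟩ := Finset.mem_filter.1 hy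
    simp only [Prod.mk.injEq] at hxy
    obtain ⟨h2, h3⟩ := hxy
    have h1 := h1.trans h1'.symm
    funext e
    fin_cases d <;> fin_cases e <;> first | exact h1 | exact h2 | exact h3
  have h2 : B.card ≤ Z.card ^ 2 := by
    have : (Z ×ˢ Z).card = Z.card ^ 2 := by rw [Finset.card_product, sq]
    rw [← this]
    refine Finset.card_le_card_of_injOn (fun t => (src t, tgt t)) ?_ ?_
    · intro t ht
      obtain ⟨_, _, h3, h4⟩ := Finset.mem_filter.1 ht
      exact Finset.mem_coe.2 (Finset.mem_product.2 ⟨h3, h4⟩)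
    · intro x hx y hy hxy
      simp only [Prod.mk.injEq] at hxy
      exact h.inj (Finset.mem_filter.1 hx).1 (Finset.mem_filter.1 hy).1 hxy.1 hxy.2
  have h3 : B.card ^ 2 ≤ (n * Z.card) ^ 2 := by
    rw [mul_pow, sq B.card]
    exact Nat.mul_le_mul h1 h2
  exact (Nat.pow_le_pow_iff_left (by norm_num)).1 h3

/-- The edges which are heavy at both ends. -/
theorem Cover.card_heavy (h : Cover c P src tgt μ) (θ : ℕ) :
    θ * (P.filter (fun t => (∃ d, src t ∈ hvy P src tgt θ d (t d)) ∧
      ∃ d, tgt t ∈ hvy P src tgt θ d (t d))).card ≤ 18 * n * P.card := by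
  classical
  set X := hvy P src tgt θ with hX
  set H := P.filter (fun t => (∃ d, src t ∈ X d (t d)) ∧ ∃ d, tgt t ∈ X d (t d)) with hH
  let A : Fin 3 → Fin n → Finset (Lab n) := fun d a =>
    P.filter (fun t => t d = a ∧ src t ∈ X d a ∧ tgt t ∈ X d a)
  let B : Fin 3 → Fin n → Fin n → Finset (Lab n) := fun f a a' =>
    P.filter (fun t => t (f + 1) = a ∧ t (f + 2) = a' ∧
      src t ∈ X (f + 1) a ∪ X (f + 2) a' ∧ tgt t ∈ X (f + 1) a ∪ X (f + 2) a')
  have hsub : H ⊆ (univ.biUnion fun d => univ.biUnion fun a => A d a) ∪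
      (univ.biUnion fun f => univ.biUnion fun a => univ.biUnion fun a' => B f a a') := by
    intro t ht
    obtain ⟨htP, ⟨d, hd⟩, ⟨d', hd'⟩⟩ := Finset.mem_filter.1 ht
    rw [Finset.mem_union]
    by_cases hdd : d = d'
    · left
      subst hdd
      simp only [mem_biUnion, mem_univ, true_and]
      exact ⟨d, t d, Finset.mem_filter.2 ⟨htP, rfl, hd, hd'⟩⟩
    · right
      simp only [mem_biUnion, mem_univ, true_and]
      obtain ⟨f, hf⟩ := third_coord d d' hdd
      rcases hf with ⟨rfl, rfl⟩ | ⟨rfl, rfl⟩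
      · exact ⟨f, t (f + 1), t (f + 2), Finset.mem_filter.2 ⟨htP, rfl, rfl,
          Finset.mem_union_left _ hd, Finset.mem_union_right _ hd'⟩⟩
      · exact ⟨f, t (f + 1), t (f + 2), Finset.mem_filter.2 ⟨htP, rfl, rfl,
          Finset.mem_union_right _ hd, Finset.mem_union_left _ hd'⟩⟩
  have hA : ∀ d a, (A d a).card ≤ n * (X d a).card := fun d a => h.card_plane d a (X d a)
  have hB : ∀ f a a', (B f a a').card ≤ (X (f + 1) a).card + (X (f + 2) a').card := fun f a a' =>
    (h.card_line f a a' _).trans (Finset.card_union_le _ _)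
  let S : Fin 3 → ℕ := fun d => ∑ a : Fin n, (X d a).card
  have hS : ∀ d, θ * S d ≤ 2 * P.card := fun d => sum_hvy P src tgt θ d
  have h1 : H.card ≤ ∑ d : Fin 3, n * S d + ∑ f : Fin 3, (n * S (f + 1) + n * S (f + 2)) := by
    refine (Finset.card_le_card hsub).trans ((Finset.card_union_le _ _).trans
      (Nat.add_le_add ?_ ?_))
    · refine Finset.card_biUnion_le.trans (Finset.sum_le_sum fun d _ => ?_)
      refine Finset.card_biUnion_le.trans ?_
      rw [Finset.mul_sum]
      exact Finset.sum_le_sum fun a _ => hA d a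
    · refine Finset.card_biUnion_le.trans (Finset.sum_le_sum fun f _ => ?_)
      refine Finset.card_biUnion_le.trans ?_
      refine (Finset.sum_le_sum fun a _ => Finset.card_biUnion_le).trans ?_
      refine (Finset.sum_le_sum fun a _ => Finset.sum_le_sum fun a' _ => hB f a a').trans ?_
      simp only [Finset.sum_add_distrib, Finset.sum_const, Finset.card_univ, Fintype.card_fin,
        smul_eq_mul, S, Finset.mul_sum]
      exact le_rfl
  have h2 : ∑ d : Fin 3, n * S d + ∑ f : Fin 3, (n * S (f + 1) + n * S (f + 2)) =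
      3 * n * (S 0 + S 1 + S 2) := by
    simp only [Fin.sum_univ_three]
    have e1 : (0 : Fin 3) + 1 = 1 := rfl
    have e2 : (0 : Fin 3) + 2 = 2 := rfl
    have e3 : (1 : Fin 3) + 1 = 2 := rfl
    have e4 : (1 : Fin 3) + 2 = 0 := rfl
    have e5 : (2 : Fin 3) + 1 = 0 := rfl
    have e6 : (2 : Fin 3) + 2 = 1 := rfl
    rw [e1, e2, e3, e4, e5, e6]
    ring
  rw [h2] at h1
  calc θ * H.card ≤ θ * (3 * n * (S 0 + S 1 + S 2)) := Nat.mul_le_mul le_rfl h1
    _ = 3 * n * (θ * S 0 + θ * S 1 + θ * S 2) := by ring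
    _ ≤ 3 * n * (2 * P.card + 2 * P.card + 2 * P.card) := by
        refine Nat.mul_le_mul le_rfl ?_
        have := hS 0; have := hS 1; have := hS 2
        omega
    _ = 18 * n * P.card := by ring

/-- The light edges at a vertex. -/
def lgt (P : Finset (Lab n)) (src tgt : Lab n → ι) (θ : ℕ) (v : ι) : Finset (Lab n) :=
  P.filter (fun t => Inc src tgt t v ∧ ∀ d, v ∉ hvy P src tgt θ d (t d))

theorem Cover.sum_lgt_sq (h : Cover c P src tgt μ) (θ : ℕ) :
    ∑ v : ι, (lgt P src tgt θ v).card ^ 2 ≤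
      8 * Fintype.card ι ^ 2 + 3 * θ * ∑ v : ι, (lgt P src tgt θ v).card := by
  classical
  let Q : ι → Finset (Lab n × Lab n) := fun v =>
    (lgt P src tgt θ v ×ˢ lgt P src tgt θ v).filter (fun x => ∀ d, x.1 d ≠ x.2 d)
  have h1 : ∀ v, (lgt P src tgt θ v).card ^ 2 ≤
      (Q v).card + 3 * θ * (lgt P src tgt θ v).card := by
    intro v
    set L := lgt P src tgt θ v with hL
    let R : Fin 3 → Finset (Lab n × Lab n) := fun d =>
      L.biUnion fun s => (cls P src tgt d (s d) v).image (fun t => (s, t))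
    have hsub : L ×ˢ L ⊆ Q v ∪ univ.biUnion R := by
      rintro ⟨s, t⟩ hst
      rw [Finset.mem_union]
      by_cases hne : ∀ d, s d ≠ t d
      · left
        exact Finset.mem_filter.2 ⟨hst, hne⟩
      · right
        push Not at hne
        obtain ⟨d, hd⟩ := hne
        obtain ⟨hs, ht⟩ := Finset.mem_product.1 hst
        simp only [mem_biUnion, mem_univ, true_and, R]
        refine ⟨d, s, hs, Finset.mem_image.2 ⟨t, ?_, rfl⟩⟩
        obtain ⟨htP, htv, _⟩ := Finset.mem_filter.1 ht
        exact Finset.mem_filter.2 ⟨htP, htv, hd.symm⟩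
    have hR : ∀ d, (R d).card ≤ L.card * θ := by
      intro d
      refine Finset.card_biUnion_le.trans ?_
      rw [← smul_eq_mul, ← Finset.sum_const]
      refine Finset.sum_le_sum fun s hs => Finset.card_image_le.trans ?_
      obtain ⟨_, _, hs2⟩ := Finset.mem_filter.1 hs
      have h3 := hs2 d
      simp only [hvy, mem_filter, mem_univ, true_and, not_le] at h3
      exact h3.le
    have h4 := (Finset.card_le_card hsub).trans (Finset.card_union_le _ _)
    rw [Finset.card_product, ← sq] at h4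
    refine h4.trans (Nat.add_le_add_left ?_ _)
    refine Finset.card_biUnion_le.trans ?_
    refine (Finset.sum_le_sum fun d _ => hR d).trans ?_
    rw [Finset.sum_const, Finset.card_univ, Fintype.card_fin, smul_eq_mul]
    exact le_of_eq (by ring)
  have h2 : ∑ v : ι, (Q v).card ≤ (paths P src tgt).card := by
    have h5 : (univ.sigma Q).card = ∑ v : ι, (Q v).card := Finset.card_sigma _ _
    rw [← h5]
    refine Finset.card_le_card_of_injOn (fun x => (x.1, x.2)) ?_ ?_
    · rintro ⟨v, s, t⟩ hx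
      obtain ⟨_, hx⟩ := Finset.mem_sigma.1 hx
      obtain ⟨hx, hne⟩ := Finset.mem_filter.1 hx
      obtain ⟨hs, ht⟩ := Finset.mem_product.1 hx
      obtain ⟨hsP, hsv, _⟩ := Finset.mem_filter.1 hs
      obtain ⟨htP, htv, _⟩ := Finset.mem_filter.1 ht
      refine Finset.mem_coe.2 (Finset.mem_filter.2 ⟨?_, hsv, htv, hne⟩)
      exact Finset.mem_product.2 ⟨Finset.mem_univ _, Finset.mem_product.2 ⟨hsP, htP⟩⟩
    · rintro ⟨v, x⟩ _ ⟨v', x'⟩ _ hxx
      simp only [Prod.mk.injEq] at hxx
      obtain ⟨rfl, rfl⟩ := hxx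
      rfl
  calc ∑ v : ι, (lgt P src tgt θ v).card ^ 2
      ≤ ∑ v : ι, ((Q v).card + 3 * θ * (lgt P src tgt θ v).card) :=
        Finset.sum_le_sum fun v _ => h1 v
    _ = ∑ v : ι, (Q v).card + 3 * θ * ∑ v : ι, (lgt P src tgt θ v).card := by
        rw [Finset.sum_add_distrib, Finset.mul_sum]
    _ ≤ _ := Nat.add_le_add_right (h2.trans h.card_paths) _

/-- Main counting lemma. -/
theorem Cover.main (h : Cover c P src tgt μ) (hP : n ^ 3 ≤ 3 * P.card) :
    n ^ 2 ≤ 1296 * Fintype.card ι := by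
  classical
  by_contra hlt
  push Not at hlt
  have hn : 0 < n := by
    rcases Nat.eq_zero_or_pos n with rfl | h0
    · simp at hlt
    · exact h0
  set T := Fintype.card ι with hT
  set θ := 36 * n with hθ
  set L := ∑ v : ι, (lgt P src tgt θ v).card with hL
  set H := (P.filter (fun t => (∃ d, src t ∈ hvy P src tgt θ d (t d)) ∧
      ∃ d, tgt t ∈ hvy P src tgt θ d (t d))) with hH
  have h1 : θ * H.card ≤ 18 * n * P.card := h.card_heavy θ
  have h2 : 2 * H.card ≤ P.card := by
    have h3 : (18 * n) * (2 * H.card) ≤ (18 * n) * P.card := by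
      rw [hθ] at h1
      calc (18 * n) * (2 * H.card) = 36 * n * H.card := by ring
        _ ≤ _ := h1
    exact Nat.le_of_mul_le_mul_left h3 (by omega)
  have h3 : P.card ≤ H.card + L := by
    have hsub : P ⊆ H ∪ univ.biUnion (fun v => lgt P src tgt θ v) := by
      intro t ht
      rw [Finset.mem_union]
      by_cases hs : ∃ d, src t ∈ hvy P src tgt θ d (t d)
      · by_cases hg : ∃ d, tgt t ∈ hvy P src tgt θ d (t d)
        · left
          exact Finset.mem_filter.2 ⟨ht, hs, hg⟩
        · right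
          simp only [mem_biUnion, mem_univ, true_and]
          push Not at hg
          exact ⟨tgt t, Finset.mem_filter.2 ⟨ht, Or.inr rfl, hg⟩⟩
      · right
        simp only [mem_biUnion, mem_univ, true_and]
        push Not at hs
        exact ⟨src t, Finset.mem_filter.2 ⟨ht, Or.inl rfl, hs⟩⟩
    refine (Finset.card_le_card hsub).trans ((Finset.card_union_le _ _).trans
      (Nat.add_le_add_left Finset.card_biUnion_le _))
  have h4 : L ^ 2 ≤ T * (8 * T ^ 2 + 3 * θ * L) := by
    have h5 := sq_sum_le_card_mul_sum_sq (s := (univ : Finset ι))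
      (f := fun v => (lgt P src tgt θ v).card)
    rw [Finset.card_univ] at h5
    exact h5.trans (Nat.mul_le_mul le_rfl (h.sum_lgt_sq θ))
  have h5 : n ^ 3 ≤ 6 * L := by omega
  -- arithmetic
  have hr1 : (n : ℝ) ^ 3 ≤ 6 * L := by exact_mod_cast h5
  have hr2 : (1296 : ℝ) * T < n ^ 2 := by exact_mod_cast hlt
  have hr3 : (L : ℝ) ^ 2 ≤ T * (8 * T ^ 2 + 3 * (36 * n) * L) := by
    have : L ^ 2 ≤ T * (8 * T ^ 2 + 3 * (36 * n) * L) := by rw [← hθ]; exact h4
    exact_mod_cast this
  have hnr : (1 : ℝ) ≤ n := by exact_mod_cast hn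
  have hT0 : (0 : ℝ) ≤ T := Nat.cast_nonneg _
  have hL0 : (0 : ℝ) ≤ L := Nat.cast_nonneg _
  have hr4 : (216 : ℝ) * n * T ≤ L := by
    have e1 : (1296 : ℝ) * T * n ≤ n ^ 2 * n := by
      exact mul_le_mul_of_nonneg_right hr2.le (by linarith)
    nlinarith
  have hr5 : (L : ℝ) ^ 2 ≤ 16 * T ^ 3 := by
    nlinarith [mul_le_mul_of_nonneg_right hr4 hL0]
  have hr6 : (n : ℝ) ^ 6 ≤ 576 * T ^ 3 := by
    have e2 : ((n : ℝ) ^ 3) ^ 2 ≤ (6 * L) ^ 2 := pow_le_pow_left₀ (by positivity) hr1 2
    nlinarith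
  have hr7 : ((1296 : ℝ) * T) ^ 3 ≤ (n ^ 2) ^ 3 := pow_le_pow_left₀ (by positivity) hr2.le 3
  have hT3 : (T : ℝ) ^ 3 ≤ 0 := by nlinarith
  have hn6 : (1 : ℝ) ≤ (n : ℝ) ^ 6 := one_le_pow₀ hnr
  nlinarith

end comb

end Pool.Agent.H80.TS
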