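import Pool.Agent.H80.TS.Model
import Pool.Agent.H80.TS.Comb

set_option autoImplicit false

namespace Pool.Agent.H80.TS

open Polynomial

variable {n : ℕ}

/-! ### The generic run -/

namespace HashAlg

variable (A : HashAlg n)

/-- The forms chosen when equalities hold only between identical forms. -/
noncomputable def forms {n : ℕ} (A : HashAlg n) (ι : A.I) : ℕ → ℕ → Form n
  | 0 => fun _ => ⟨fun _ _ => 0, 0, 0⟩
  | t + 1 => fun i => if i = t then
      A.step ι t (fun i j => i < t ∧ j < t ∧ forms A ι t i = forms A ι t j)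
      else forms A ι t i

theorem forms_succ (ι : A.I) (t i : ℕ) : A.forms ι (t + 1) i = if i = t then
      A.step ι t (fun i j => i < t ∧ j < t ∧ A.forms ι t i = A.forms ι t j)
      else A.forms ι t i := rfl

theorem values_succ (a : Fin 3 → Fin n → ℤ) (x : ℤ) (t i : ℕ) :
    A.values a x (t + 1) i = if i = t then
      (A.step (A.info a x) t
        (fun i j => i < t ∧ j < t ∧ A.values a x t i = A.values a x t j)).eval a x
      else A.values a x t i := rfl

theorem forms_stable (ι : A.I) {i t T : ℕ} (hi : i < t) (ht : t ≤ T) :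
    A.forms ι T i = A.forms ι t i := by
  induction T, ht using Nat.le_induction with
  | base => rfl
  | succ T hT ih =>
    rw [forms_succ, if_neg (by omega), ih]

theorem values_stable (a : Fin 3 → Fin n → ℤ) (x : ℤ) {i t T : ℕ} (hi : i < t) (ht : t ≤ T) :
    A.values a x T i = A.values a x t i := by
  induction T, ht using Nat.le_induction with
  | base => rfl
  | succ T hT ih =>
    rw [values_succ, if_neg (by omega), ih]

/-- On a generic input the run is the generic run. -/
theorem values_eq (a : Fin 3 → Fin n → ℤ) (x : ℤ) (T : ℕ)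
    (h : ∀ i j, i < T → j < T →
      (A.forms (A.info a x) T i).eval a x = (A.forms (A.info a x) T j).eval a x →
      A.forms (A.info a x) T i = A.forms (A.info a x) T j) :
    ∀ t ≤ T, ∀ i < t, A.values a x t i = (A.forms (A.info a x) T i).eval a x := by
  intro t
  induction t with
  | zero => intro _ i hi; omega
  | succ t ih =>
    intro ht i hi
    rw [values_succ]
    by_cases hit : i = t
    · subst hit
      rw [if_pos rfl, A.forms_stable (A.info a x) (Nat.lt_succ_self i) ht, forms_succ, if_pos rfl]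
      congr 2
      funext j k
      refine propext ⟨?_, ?_⟩
      · rintro ⟨hj, hk, he⟩
        refine ⟨hj, hk, ?_⟩
        rw [ih (by omega) j hj, ih (by omega) k hk] at he
        have := h j k (by omega) (by omega) he
        rwa [A.forms_stable (A.info a x) hj (by omega),
          A.forms_stable (A.info a x) hk (by omega)] at this
      · rintro ⟨hj, hk, he⟩
        refine ⟨hj, hk, ?_⟩
        rw [ih (by omega) j hj, ih (by omega) k hk, A.forms_stable (A.info a x) hj (by omega),
          A.forms_stable (A.info a x) hk (by omega), he]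
    · rw [if_neg hit, ih (by omega) i (by omega)]

/-- The answer of the generic run. -/
def out (ι : A.I) (T : ℕ) : Prop :=
  A.accept ι (fun i j => i < T ∧ j < T ∧ A.forms ι T i = A.forms ι T j)

theorem accepts_iff (a : Fin 3 → Fin n → ℤ) (x : ℤ) (T : ℕ)
    (h : ∀ i j, i < T → j < T →
      (A.forms (A.info a x) T i).eval a x = (A.forms (A.info a x) T j).eval a x →
      A.forms (A.info a x) T i = A.forms (A.info a x) T j) :
    A.accepts a x T ↔ A.out (A.info a x) T := by
  unfold accepts out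
  have h1 := A.values_eq a x T h T le_rfl
  have h2 : (fun i j => i < T ∧ j < T ∧ A.values a x T i = A.values a x T j) =
      (fun i j => i < T ∧ j < T ∧ A.forms (A.info a x) T i = A.forms (A.info a x) T j) := by
    funext j k
    refine propext ⟨?_, ?_⟩
    · rintro ⟨hj, hk, he⟩
      refine ⟨hj, hk, ?_⟩
      rw [h1 j hj, h1 k hk] at he
      exact h j k hj hk he
    · rintro ⟨hj, hk, he⟩
      refine ⟨hj, hk, ?_⟩
      rw [h1 j hj, h1 k hk, he]
  rw [h2]

end HashAlg

/-! ### Generic inputs -/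

/-- The exponent of the input number `a d i`. -/
def ex (d : Fin 3) (i : Fin n) : ℕ := d.1 * n + i.1 + 1

theorem ex_inj {d d' : Fin 3} {i i' : Fin n} (h : ex d i = ex d' i') : d = d' ∧ i = i' := by
  unfold ex at h
  have h1 := i.2
  have h2 := i'.2
  have h3 : d.1 * n + i.1 = d'.1 * n + i'.1 := by omega
  have h4 : d.1 = d'.1 := by
    rcases lt_trichotomy d.1 d'.1 with h | h | h
    · have : (d.1 + 1) * n ≤ d'.1 * n := Nat.mul_le_mul h le_rfl
      rw [add_mul, one_mul] at this
      omega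
    · exact h
    · have : (d'.1 + 1) * n ≤ d.1 * n := Nat.mul_le_mul h le_rfl
      rw [add_mul, one_mul] at this
      omega
  refine ⟨Fin.ext h4, Fin.ext ?_⟩
  rw [h4] at h3
  omega

theorem ex_le (d : Fin 3) (i : Fin n) : ex d i ≤ 3 * n := by
  unfold ex
  have h1 := i.2
  have h2 := d.2
  have : d.1 * n ≤ 2 * n := Nat.mul_le_mul (by omega) le_rfl
  omega

theorem ex_pos (d : Fin 3) (i : Fin n) : 1 ≤ ex d i := by
  unfold ex; omega

/-- The three sets. -/
def setA (n s : ℕ) : Fin 3 → Fin n → ℤ := fun d i => (s : ℤ) ^ (3 * n + 1) + (s : ℤ) ^ ex d i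

/-- `x` for the generic input. -/
def xGen (n s : ℕ) : ℤ := 3 * (s : ℤ) ^ (3 * n + 1) + (s : ℤ) ^ (3 * n + 2)

/-- `x` for the input with the solution `t`. -/
def xPl (s : ℕ) (t : Lab n) : ℤ := ∑ d : Fin 3, setA n s d (t d)

/-- The polynomial of a form, `x` being replaced by the polynomial `Q`. -/
noncomputable def polyOf (φ : Form n) (Q : ℝ[X]) : ℝ[X] :=
  C φ.const + C φ.coefx * Q +
    ∑ d : Fin 3, ∑ i : Fin n, C (φ.coef d i) * (X ^ (3 * n + 1) + X ^ ex d i)

noncomputable def QGen (n : ℕ) : ℝ[X] := C 3 * X ^ (3 * n + 1) + X ^ (3 * n + 2)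

noncomputable def QPl (t : Lab n) : ℝ[X] := ∑ d : Fin 3, (X ^ (3 * n + 1) + X ^ ex d (t d))

theorem eval_polyOf_gen (φ : Form n) (s : ℕ) :
    (polyOf φ (QGen n)).eval (s : ℝ) = φ.eval (setA n s) (xGen n s) := by
  simp [polyOf, QGen, Form.eval, setA, xGen, eval_finsetSum]

theorem eval_polyOf_pl (φ : Form n) (s : ℕ) (t : Lab n) :
    (polyOf φ (QPl t)).eval (s : ℝ) = φ.eval (setA n s) (xPl s t) := by
  simp [polyOf, QPl, Form.eval, setA, xPl, eval_finsetSum]

theorem coeff_polyOf (φ : Form n) (Q : ℝ[X]) (m : ℕ) :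
    (polyOf φ Q).coeff m = (if m = 0 then φ.const else 0) + φ.coefx * Q.coeff m +
      ∑ d : Fin 3, ∑ i : Fin n, φ.coef d i *
        ((if m = 3 * n + 1 then 1 else 0) + (if m = ex d i then 1 else 0)) := by
  simp only [polyOf, coeff_add, coeff_C_mul, finsetSum_coeff, coeff_X_pow, coeff_C]

theorem coeff_polyOf_zero (φ : Form n) (Q : ℝ[X]) (hQ : Q.coeff 0 = 0) :
    (polyOf φ Q).coeff 0 = φ.const := by
  rw [coeff_polyOf, if_pos rfl, hQ, mul_zero, add_zero]
  have h : ∑ d : Fin 3, ∑ i : Fin n, φ.coef d i *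
        ((if 0 = 3 * n + 1 then 1 else 0) + (if 0 = ex d i then 1 else 0)) = 0 := by
    refine Finset.sum_eq_zero fun d _ => Finset.sum_eq_zero fun i _ => ?_
    have := ex_pos d i
    rw [if_neg (by omega), if_neg (by omega), add_zero, mul_zero]
  rw [h, add_zero]

theorem coeff_polyOf_ex (φ : Form n) (Q : ℝ[X]) (d : Fin 3) (i : Fin n) :
    (polyOf φ Q).coeff (ex d i) = φ.coefx * Q.coeff (ex d i) + φ.coef d i := by
  have h1 := ex_pos d i
  have h2 := ex_le d i
  rw [coeff_polyOf, if_neg (by omega), zero_add]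
  congr 1
  rw [Finset.sum_eq_single d, Finset.sum_eq_single i]
  · rw [if_neg (by omega), if_pos rfl, zero_add, mul_one]
  · intro i' _ hi'
    rw [if_neg (by omega), if_neg (fun h => hi' (ex_inj h).2.symm), add_zero, mul_zero]
  · intro h; exact absurd (Finset.mem_univ _) h
  · intro d' _ hd'
    refine Finset.sum_eq_zero fun i' _ => ?_
    rw [if_neg (by omega), if_neg (fun h => hd' (ex_inj h).1.symm), add_zero, mul_zero]
  · intro h; exact absurd (Finset.mem_univ _) h

theorem coeff_polyOf_top (φ : Form n) (Q : ℝ[X]) :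
    (polyOf φ Q).coeff (3 * n + 2) = φ.coefx * Q.coeff (3 * n + 2) := by
  rw [coeff_polyOf, if_neg (by omega), zero_add]
  have h : ∑ d : Fin 3, ∑ i : Fin n, φ.coef d i *
        ((if 3 * n + 2 = 3 * n + 1 then 1 else 0) + (if 3 * n + 2 = ex d i then 1 else 0)) = 0 := by
    refine Finset.sum_eq_zero fun d _ => Finset.sum_eq_zero fun i _ => ?_
    have := ex_le d i
    rw [if_neg (by omega), if_neg (by omega), add_zero, mul_zero]
  rw [h, add_zero]

theorem coeff_QGen (m : ℕ) : (QGen n).coeff m =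
    3 * (if m = 3 * n + 1 then 1 else 0) + (if m = 3 * n + 2 then 1 else 0) := by
  rw [QGen, coeff_add, coeff_C_mul, coeff_X_pow, coeff_X_pow]

theorem coeff_QPl (t : Lab n) (m : ℕ) : (QPl t).coeff m =
    ∑ d : Fin 3, ((if m = 3 * n + 1 then 1 else 0) + (if m = ex d (t d) then 1 else 0)) := by
  simp only [QPl, finsetSum_coeff, coeff_add, coeff_X_pow]

theorem polyOf_gen_inj {φ ψ : Form n} (h : polyOf φ (QGen n) = polyOf ψ (QGen n)) : φ = ψ := by
  have h0 : (QGen n).coeff 0 = 0 := by
    rw [coeff_QGen, if_neg (by omega), if_neg (by omega)]; ring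
  have htop : (QGen n).coeff (3 * n + 2) = 1 := by
    rw [coeff_QGen, if_neg (by omega), if_pos rfl]; ring
  have h1 := congrArg (fun p => p.coeff 0) h
  simp only [coeff_polyOf_zero _ _ h0] at h1
  have h2 := congrArg (fun p => p.coeff (3 * n + 2)) h
  simp only [coeff_polyOf_top, htop, mul_one] at h2
  have h3 : ∀ d i, φ.coef d i = ψ.coef d i := by
    intro d i
    have h4 := congrArg (fun p => p.coeff (ex d i)) h
    have h5 := ex_le d i
    have h6 : (QGen n).coeff (ex d i) = 0 := by
      rw [coeff_QGen, if_neg (by omega), if_neg (by omega)]; ring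
    simpa only [coeff_polyOf_ex, h6, mul_zero, zero_add] using h4
  ext d i
  · exact h3 d i
  · exact h2
  · exact h1

/-- Two different forms agreeing on the generic input with solution `t`. -/
theorem polyOf_pl_eq {φ ψ : Form n} {t : Lab n} (h : polyOf φ (QPl t) = polyOf ψ (QPl t)) :
    φ.const = ψ.const ∧
    ∀ d i, φ.coef d i - ψ.coef d i = if i = t d then -(φ.coefx - ψ.coefx) else 0 := by
  have h0 : (QPl t).coeff 0 = 0 := by
    rw [coeff_QPl]
    refine Finset.sum_eq_zero fun d _ => ?_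
    have := ex_pos d (t d)
    rw [if_neg (by omega), if_neg (by omega), add_zero]
  have h1 := congrArg (fun p => p.coeff 0) h
  simp only [coeff_polyOf_zero _ _ h0] at h1
  refine ⟨h1, fun d i => ?_⟩
  have h4 := congrArg (fun p => p.coeff (ex d i)) h
  simp only [coeff_polyOf_ex] at h4
  have h5 : (QPl t).coeff (ex d i) = if i = t d then 1 else 0 := by
    rw [coeff_QPl]
    have h6 := ex_le d i
    rw [Finset.sum_eq_single d]
    · rw [if_neg (by omega), zero_add]
      by_cases hi : i = t d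
      · rw [if_pos hi, if_pos (by rw [← hi])]
      · rw [if_neg hi, if_neg (fun h => hi (ex_inj h).2)]
    · intro d' _ hd'
      rw [if_neg (by omega), if_neg (fun h => hd' (ex_inj h).1.symm), add_zero]
    · intro h; exact absurd (Finset.mem_univ _) h
  rw [h5] at h4
  split_ifs at h4 ⊢ with hi
  · linarith
  · linarith

/-- Avoiding finitely many polynomials on an infinite set of natural numbers. -/
theorem exists_avoid (S : Set ℕ) (hS : S.Infinite) (Φ : Finset ℝ[X]) (h0 : ∀ p ∈ Φ, p ≠ 0)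
    (k : ℕ) : ∃ s ∈ S, k ≤ s ∧ ∀ p ∈ Φ, p.eval (s : ℝ) ≠ 0 := by
  classical
  have hfin : (⋃ p ∈ Φ, {s : ℕ | p.eval (s : ℝ) = 0}).Finite := by
    refine Set.Finite.biUnion (Finset.finite_toSet Φ) fun p hp => ?_
    have h1 : (p.roots.toFinset : Set ℝ).Finite := Finset.finite_toSet _
    have h2 := h1.preimage (f := fun s : ℕ => (s : ℝ)) (Nat.cast_injective.injOn)
    refine h2.subset fun s hs => ?_
    simp only [Set.mem_preimage, Finset.mem_coe, Multiset.mem_toFinset]
    exact (mem_roots (h0 p hp)).2 hs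
  have hfin2 : ((⋃ p ∈ Φ, {s : ℕ | p.eval (s : ℝ) = 0}) ∪ {s | s < k}).Finite :=
    hfin.union (Set.finite_lt_nat k)
  obtain ⟨s, hs, hs'⟩ := hS.exists_notMem_finite hfin2
  refine ⟨s, hs, ?_, ?_⟩
  · by_contra hlt
    exact hs' (Or.inr (not_le.1 hlt))
  · intro p hp he
    apply hs'
    left
    simp only [Set.mem_iUnion]
    exact ⟨p, hp, he⟩

/-! ### Properties of the inputs -/

theorem setA_le {s : ℕ} (hs : 2 ≤ s) (d : Fin 3) (i : Fin n) :
    setA n s d i ≤ (s : ℤ) ^ (3 * n + 1) + (s : ℤ) ^ (3 * n) := by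
  have h1 : (1 : ℤ) ≤ s := by exact_mod_cast (by omega : 1 ≤ s)
  exact add_le_add_right (pow_le_pow_right₀ h1 (ex_le d i)) _

theorem setA_gt {s : ℕ} (hs : 2 ≤ s) (d : Fin 3) (i : Fin n) :
    (s : ℤ) ^ (3 * n + 1) < setA n s d i := by
  have h1 : (0 : ℤ) < s := by exact_mod_cast (by omega : 0 < s)
  have := pow_pos h1 (ex d i)
  unfold setA
  linarith

theorem pow_lt_aux {s : ℕ} (hs : 2 ≤ s) :
    (0 : ℤ) < (s : ℤ) ^ (3 * n) ∧ (s : ℤ) ^ (3 * n) < (s : ℤ) ^ (3 * n + 1) ∧
      3 * (s : ℤ) ^ (3 * n) < (s : ℤ) ^ (3 * n + 2) := by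
  have h1 : (2 : ℤ) ≤ s := by exact_mod_cast hs
  have h2 : (0 : ℤ) < (s : ℤ) ^ (3 * n) := by positivity
  refine ⟨h2, ?_, ?_⟩
  · rw [pow_succ]; nlinarith
  · rw [pow_add]; nlinarith [mul_le_mul h1 h1 (by norm_num) (by linarith : (0 : ℤ) ≤ s)]

theorem setA_lt_xGen {s : ℕ} (hs : 2 ≤ s) (d : Fin 3) (i : Fin n) :
    setA n s d i < xGen n s := by
  have h1 := setA_le (n := n) hs d i
  obtain ⟨h2, h3, h4⟩ := pow_lt_aux (n := n) hs
  unfold xGen
  linarith

theorem setA_lt_xPl {s : ℕ} (hs : 2 ≤ s) (d : Fin 3) (i : Fin n) (t : Lab n) :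
    setA n s d i < xPl s t := by
  have h1 := setA_le (n := n) hs d i
  obtain ⟨h2, h3, h4⟩ := pow_lt_aux (n := n) hs
  have h5 := setA_gt (n := n) hs 0 (t 0)
  have h6 := setA_gt (n := n) hs 1 (t 1)
  have h7 := setA_gt (n := n) hs 2 (t 2)
  unfold xPl
  rw [Fin.sum_univ_three]
  linarith

theorem inSumset_xPl (s : ℕ) (t : Lab n) : InSumset (setA n s) (xPl s t) :=
  ⟨t 0, t 1, t 2, by rw [xPl, Fin.sum_univ_three]⟩

theorem not_inSumset_xGen {s : ℕ} (hs : 2 ≤ s) : ¬ InSumset (setA n s) (xGen n s) := by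
  rintro ⟨i, j, k, h⟩
  have h5 := setA_le (n := n) hs 0 i
  have h6 := setA_le (n := n) hs 1 j
  have h7 := setA_le (n := n) hs 2 k
  obtain ⟨h2, h3, h4⟩ := pow_lt_aux (n := n) hs
  unfold xGen at h
  linarith

theorem setA_injective {s : ℕ} (hs : 2 ≤ s) (d : Fin 3) : Function.Injective (setA n s d) := by
  intro i j h
  unfold setA at h
  have h1 : (s : ℤ) ^ ex d i = (s : ℤ) ^ ex d j := by linarith
  have h2 : s ^ ex d i = s ^ ex d j := by exact_mod_cast h1
  exact (ex_inj (Nat.pow_right_injective hs h2)).2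

/-! ### The lower bound -/

/-- The solutions covered by a run. -/
noncomputable def covered (F : ℕ → Form n) (T : ℕ) : Finset (Lab n) := by
  classical
  exact Finset.univ.filter (fun t => ∃ i j, i < T ∧ j < T ∧ F i ≠ F j ∧
    polyOf (F i) (QPl t) = polyOf (F j) (QPl t))

theorem covered_bound (F : ℕ → Form n) (T : ℕ) (h : n ^ 3 ≤ 3 * (covered F T).card) :
    n ^ 2 ≤ 1296 * T := by
  classical
  rcases Nat.eq_zero_or_pos T with rfl | hT
  · have h1 : covered F 0 = ∅ := by
      ext t
      simp [covered]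
    rw [h1] at h
    simp only [Finset.card_empty, mul_zero, Nat.le_zero] at h
    have : n = 0 := by
      rcases Nat.eq_zero_or_pos n with h0 | h0
      · exact h0
      · exact absurd h (by positivity)
    simp [this]
  · have : Nonempty (Fin T) := ⟨⟨0, hT⟩⟩
    have hex : ∀ t : Lab n, t ∈ covered F T → ∃ i j : Fin T, F i ≠ F j ∧
        polyOf (F i) (QPl t) = polyOf (F j) (QPl t) := by
      intro t ht
      simp only [covered, Finset.mem_filter, Finset.mem_univ, true_and] at ht
      obtain ⟨i, j, hi, hj, h1, h2⟩ := ht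
      exact ⟨⟨i, hi⟩, ⟨j, hj⟩, h1, h2⟩
    choose! src tgt hst using hex
    have hcov : Cover (fun v : Fin T => (F v).coef) (covered F T) src tgt
        (fun t => -((F (src t)).coefx - (F (tgt t)).coefx)) := by
      refine ⟨?_, ?_⟩
      · intro t ht he
        obtain ⟨h1, h2⟩ := hst t ht
        obtain ⟨h3, h4⟩ := polyOf_pl_eq h2
        apply h1
        have h5 : (F (src t)).coefx = (F (tgt t)).coefx := by linarith
        ext d i
        · have h6 := h4 d i
          rw [h5] at h6
          simp only [sub_self, neg_zero, ite_self] at h6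
          linarith
        · exact h5
        · exact h3
      · intro t ht d i
        exact (polyOf_pl_eq (hst t ht).2).2 d i
    have := hcov.main h
    rwa [Fintype.card_fin] at this

open Classical in
theorem lower_bound (n T : ℕ) (Ω : Type) [Fintype Ω] (p : Ω → ℝ) (A : Ω → HashAlg n)
    (hp : ∀ ω, 0 ≤ p ω) (hsum : ∑ ω, p ω = 1)
    (hA : ∀ (a : Fin 3 → Fin n → ℤ) (x : ℤ), (∀ d, Function.Injective (a d)) →
      2 / 3 ≤ ∑ ω ∈ Finset.univ.filter (fun ω => ((A ω).accepts a x T ↔ InSumset a x)), p ω) :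
    n ^ 2 ≤ 1296 * T := by
  -- the information is constant on an infinite set of parameters
  have hfin : Finite (∀ ω, (A ω).I) := by
    have : ∀ ω, Finite (A ω).I := fun ω => (A ω).fin
    infer_instance
  obtain ⟨ι, hι⟩ := Finite.exists_infinite_fiber
    (fun (s : ℕ) (ω : Ω) => (A ω).info (setA n s) (xGen n s))
  let F : Ω → ℕ → Form n := fun ω => (A ω).forms (ι ω) T
  let D : Finset ℝ[X] := ((Finset.univ : Finset Ω).biUnion fun ω =>
    (Finset.range T ×ˢ Finset.range T).biUnion fun ij =>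
      insert (polyOf (F ω ij.1) (QGen n) - polyOf (F ω ij.2) (QGen n))
        ((Finset.univ : Finset (Lab n)).image fun t =>
          polyOf (F ω ij.1) (QPl t) - polyOf (F ω ij.2) (QPl t)))
  obtain ⟨s, hsS, hs2, hs⟩ := exists_avoid _ (Set.infinite_coe_iff.1 hι)
    (D.filter (fun q => q ≠ 0)) (fun q hq => (Finset.mem_filter.1 hq).2) 2
  have hinfo : ∀ ω, (A ω).info (setA n s) (xGen n s) = ι ω := fun ω => congrFun hsS ω
  have hinfo' : ∀ (ω : Ω) (t : Lab n), (A ω).info (setA n s) (xPl s t) = ι ω := by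
    intro ω t
    rw [← hinfo ω]
    refine (A ω).info_eq _ _ _ fun d i => ⟨?_, ?_⟩
    · exact iff_of_true (setA_lt_xPl hs2 d i t) (setA_lt_xGen hs2 d i)
    · exact iff_of_false (setA_lt_xPl hs2 d i t).ne (setA_lt_xGen hs2 d i).ne
  have hmemD : ∀ ω i j, i < T → j < T →
      (polyOf (F ω i) (QGen n) - polyOf (F ω j) (QGen n) ∈ D) ∧
      ∀ t : Lab n, polyOf (F ω i) (QPl t) - polyOf (F ω j) (QPl t) ∈ D := by
    intro ω i j hi hj
    refine ⟨?_, fun t => ?_⟩
    · simp only [D, Finset.mem_biUnion, Finset.mem_univ, true_and]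
      exact ⟨ω, (i, j), Finset.mem_product.2 ⟨Finset.mem_range.2 hi, Finset.mem_range.2 hj⟩,
        Finset.mem_insert_self _ _⟩
    · simp only [D, Finset.mem_biUnion, Finset.mem_univ, true_and]
      refine ⟨ω, (i, j), Finset.mem_product.2 ⟨Finset.mem_range.2 hi, Finset.mem_range.2 hj⟩,
        Finset.mem_insert_of_mem ?_⟩
      exact Finset.mem_image.2 ⟨t, Finset.mem_univ _, rfl⟩
  -- generic input
  have hgen : ∀ ω, (A ω).accepts (setA n s) (xGen n s) T ↔ (A ω).out (ι ω) T := by
    intro ω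
    have h := (A ω).accepts_iff (setA n s) (xGen n s) T
    rw [hinfo ω] at h
    refine h ?_
    intro i j hi hj he
    have h1 : (polyOf (F ω i) (QGen n) - polyOf (F ω j) (QGen n)).eval (s : ℝ) = 0 := by
      rw [eval_sub, eval_polyOf_gen, eval_polyOf_gen]
      exact sub_eq_zero.2 he
    by_contra hne
    refine hs _ (Finset.mem_filter.2 ⟨(hmemD ω i j hi hj).1, ?_⟩) h1
    intro h0
    exact hne (polyOf_gen_inj (sub_eq_zero.1 h0))
  -- inputs with a planted solution
  have hpl : ∀ (ω : Ω) (t : Lab n), t ∉ covered (F ω) T →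
      ((A ω).accepts (setA n s) (xPl s t) T ↔ (A ω).out (ι ω) T) := by
    intro ω t ht
    have h := (A ω).accepts_iff (setA n s) (xPl s t) T
    rw [hinfo' ω t] at h
    refine h ?_
    intro i j hi hj he
    have h1 : (polyOf (F ω i) (QPl t) - polyOf (F ω j) (QPl t)).eval (s : ℝ) = 0 := by
      rw [eval_sub, eval_polyOf_pl, eval_polyOf_pl]
      exact sub_eq_zero.2 he
    by_contra hne
    by_cases h0 : polyOf (F ω i) (QPl t) - polyOf (F ω j) (QPl t) = 0
    · apply ht
      simp only [covered, Finset.mem_filter, Finset.mem_univ, true_and]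
      exact ⟨i, j, hi, hj, hne, sub_eq_zero.1 h0⟩
    · exact hs _ (Finset.mem_filter.2 ⟨(hmemD ω i j hi hj).2 t, h0⟩) h1
  -- probabilities
  have h1 := hA (setA n s) (xGen n s) (fun d => setA_injective hs2 d)
  have h1' : 2 / 3 ≤ ∑ ω, if ¬ (A ω).out (ι ω) T then p ω else 0 := by
    rw [← Finset.sum_filter]
    refine h1.trans (Finset.sum_le_sum_of_subset_of_nonneg ?_ fun ω _ _ => hp ω)
    intro ω hω
    simp only [Finset.mem_filter, Finset.mem_univ, true_and] at hω ⊢
    intro hout
    exact not_inSumset_xGen hs2 (hω.1 ((hgen ω).2 hout))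
  have h2' : ∀ t : Lab n, 2 / 3 ≤ ∑ ω, if ((A ω).out (ι ω) T ∨ t ∈ covered (F ω) T) then p ω else 0 := by
    intro t
    rw [← Finset.sum_filter]
    refine (hA (setA n s) (xPl s t) (fun d => setA_injective hs2 d)).trans
      (Finset.sum_le_sum_of_subset_of_nonneg ?_ fun ω _ _ => hp ω)
    intro ω hω
    simp only [Finset.mem_filter, Finset.mem_univ, true_and] at hω ⊢
    by_cases ht : t ∈ covered (F ω) T
    · exact Or.inr ht
    · exact Or.inl ((hpl ω t ht).1 (hω.2 (inSumset_xPl s t)))
  have h3 : ∀ t : Lab n, 1 / 3 ≤ ∑ ω, if t ∈ covered (F ω) T then p ω else 0 := by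
    intro t
    have h4 : (∑ ω, if ¬ (A ω).out (ι ω) T then p ω else 0) +
        (∑ ω, if ((A ω).out (ι ω) T ∨ t ∈ covered (F ω) T) then p ω else 0) ≤
        ∑ ω, p ω + ∑ ω, if t ∈ covered (F ω) T then p ω else 0 := by
      rw [← Finset.sum_add_distrib, ← Finset.sum_add_distrib]
      refine Finset.sum_le_sum fun ω _ => ?_
      have := hp ω
      by_cases ho : (A ω).out (ι ω) T <;> by_cases ht : t ∈ covered (F ω) T <;>
        simp [ho, ht, this]
    have := h2' t
    rw [hsum] at h4
    linarith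
  have h5 : (n : ℝ) ^ 3 / 3 ≤ ∑ ω, p ω * (covered (F ω) T).card := by
    have h6 : ∑ t : Lab n, (1 / 3 : ℝ) ≤
        ∑ t : Lab n, ∑ ω, if t ∈ covered (F ω) T then p ω else 0 :=
      Finset.sum_le_sum fun t _ => h3 t
    rw [Finset.sum_const, Finset.card_univ, Finset.sum_comm] at h6
    have h7 : Fintype.card (Lab n) = n ^ 3 := by simp
    rw [h7, nsmul_eq_mul] at h6
    have h8 : ∀ ω, ∑ t : Lab n, (if t ∈ covered (F ω) T then p ω else 0) =
        p ω * (covered (F ω) T).card := by
      intro ω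
      rw [← Finset.sum_filter, Finset.sum_const, nsmul_eq_mul, mul_comm]
      congr 3
      ext t
      simp
    simp only [h8] at h6
    push_cast at h6
    linarith
  by_contra hcon
  have h9 : ∀ ω, 3 * (covered (F ω) T).card + 1 ≤ n ^ 3 := by
    intro ω
    by_contra h10
    exact hcon (covered_bound (F ω) T (by omega))
  have h11 : ∑ ω, p ω * (covered (F ω) T).card ≤ ∑ ω, p ω * (((n : ℝ) ^ 3 - 1) / 3) := by
    refine Finset.sum_le_sum fun ω _ => mul_le_mul_of_nonneg_left ?_ (hp ω)
    have h12 : (3 * (covered (F ω) T).card + 1 : ℝ) ≤ (n : ℝ) ^ 3 := by exact_mod_cast h9 ω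
    linarith
  rw [← Finset.sum_mul, hsum] at h11
  linarith

end Pool.Agent.H80.TS
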