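import Mathlib

/-!
# The linear hashing model for deciding membership in a threefold sumset
-/

set_option autoImplicit false

namespace Pool.Agent.H80.TS

/-- An affine form, with real coefficients, in the input numbers: the elements `a d i` of the three
sets (`d = 0, 1, 2`, `i < n`) and the number `x`. -/
@[ext] structure Form (n : ℕ) where
  /-- the coefficients of the elements of the three sets -/
  coef : Fin 3 → Fin n → ℝ
  /-- the coefficient of `x` -/
  coefx : ℝ
  /-- the constant term -/
  const : ℝ

/-- The value of a form. -/
noncomputable def Form.eval {n : ℕ} (φ : Form n) (a : Fin 3 → Fin n → ℤ) (x : ℤ) : ℝ :=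
  φ.const + φ.coefx * x + ∑ d : Fin 3, ∑ i : Fin n, φ.coef d i * a d i

/-- A (deterministic) algorithm which accesses the input numbers only linearly and by hashing.

* In each step it computes the value of an affine form of its choice in the input numbers.
* It learns at no cost which of the values computed so far are equal.
* At no cost it also knows some information `info a x` from a finite set `I`. This may be any
  function of the three sets, but may depend on `x` only through the comparisons (`<`, `=`, `>`) of
  `x` with the elements of the three sets (field `info_eq`).

Its choices (`step`: the form computed in step `t`; `accept`: the answer) may depend, in an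
arbitrary way, on all it has learnt. -/
structure HashAlg (n : ℕ) where
  I : Type
  fin : Finite I
  info : (Fin 3 → Fin n → ℤ) → ℤ → I
  info_eq : ∀ (a : Fin 3 → Fin n → ℤ) (x x' : ℤ),
    (∀ d i, (a d i < x ↔ a d i < x') ∧ (a d i = x ↔ a d i = x')) → info a x = info a x'
  step : I → ℕ → (ℕ → ℕ → Prop) → Form n
  accept : I → (ℕ → ℕ → Prop) → Prop

namespace HashAlg

/-- The values computed in the first `t` steps on the input `a, x` (value number `i` for `i < t`,
and `0` for `i ≥ t`). Step `t` may use which of the values number `0, …, t - 1` are equal. -/
noncomputable def values {n : ℕ} (A : HashAlg n) (a : Fin 3 → Fin n → ℤ) (x : ℤ) :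
    ℕ → ℕ → ℝ
  | 0 => fun _ => 0
  | t + 1 => fun i => if i = t then
      (A.step (A.info a x) t
        (fun i j => i < t ∧ j < t ∧ values A a x t i = values A a x t j)).eval a x
      else values A a x t i

/-- The answer after `T` steps. -/
def accepts {n : ℕ} (A : HashAlg n) (a : Fin 3 → Fin n → ℤ) (x : ℤ) (T : ℕ) : Prop :=
  A.accept (A.info a x) (fun i j => i < T ∧ j < T ∧ A.values a x T i = A.values a x T j)

end HashAlg

/-- `x` is a sum `a + b + c` of elements of the three sets. -/
def InSumset {n : ℕ} (a : Fin 3 → Fin n → ℤ) (x : ℤ) : Prop :=
  ∃ i j k : Fin n, a 0 i + a 1 j + a 2 k = x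

end Pool.Agent.H80.TS
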