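import Pool.Agent.H80.TS.Model

set_option autoImplicit false

namespace Pool.Agent.H80.TS

variable {n : ℕ}

/-- The form `x - a 0 (t / n) - a 1 (t % n)`. -/
def formXAB (n t : ℕ) : Form n where
  coef := fun d i => if d = 0 then (if i.1 = t / n then -1 else 0)
    else if d = 1 then (if i.1 = t % n then -1 else 0) else 0
  coefx := 1
  const := 0

/-- The form `a 2 q`. -/
def formC (n q : ℕ) : Form n where
  coef := fun d i => if d = 2 then (if i.1 = q then 1 else 0) else 0
  coefx := 0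
  const := 0

theorem eval_formXAB (a : Fin 3 → Fin n → ℤ) (x : ℤ) (i j : Fin n) (t : ℕ) (hi : t / n = i.1)
    (hj : t % n = j.1) : (formXAB n t).eval a x = x - a 0 i - a 1 j := by
  change (0 : ℝ) + 1 * x + ∑ d : Fin 3, ∑ k : Fin n,
    (if d = 0 then (if k.1 = t / n then (-1 : ℝ) else 0)
      else if d = 1 then (if k.1 = t % n then -1 else 0) else 0) * (a d k : ℝ) = _
  rw [Fin.sum_univ_three]
  have e0 : ∑ k : Fin n, (if (0 : Fin 3) = 0 then (if k.1 = t / n then (-1 : ℝ) else 0)
      else if (0 : Fin 3) = 1 then (if k.1 = t % n then -1 else 0) else 0) * (a 0 k : ℝ) =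
      -(a 0 i : ℝ) := by
    rw [Finset.sum_eq_single i]
    · simp [hi]
    · intro k _ hk
      have : k.1 ≠ t / n := fun h => hk (Fin.ext (h.trans hi))
      simp [this]
    · intro h; exact absurd (Finset.mem_univ _) h
  have e1 : ∑ k : Fin n, (if (1 : Fin 3) = 0 then (if k.1 = t / n then (-1 : ℝ) else 0)
      else if (1 : Fin 3) = 1 then (if k.1 = t % n then -1 else 0) else 0) * (a 1 k : ℝ) =
      -(a 1 j : ℝ) := by
    rw [Finset.sum_eq_single j]
    · simp [hj]
    · intro k _ hk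
      have : k.1 ≠ t % n := fun h => hk (Fin.ext (h.trans hj))
      simp [this]
    · intro h; exact absurd (Finset.mem_univ _) h
  have e2 : ∑ k : Fin n, (if (2 : Fin 3) = 0 then (if k.1 = t / n then (-1 : ℝ) else 0)
      else if (2 : Fin 3) = 1 then (if k.1 = t % n then -1 else 0) else 0) * (a 2 k : ℝ) = 0 := by
    simp
  rw [e0, e1, e2]
  ring

theorem eval_formC (a : Fin 3 → Fin n → ℤ) (x : ℤ) (k : Fin n) :
    (formC n k.1).eval a x = a 2 k := by
  change (0 : ℝ) + 0 * x + ∑ d : Fin 3, ∑ l : Fin n,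
    (if d = 2 then (if l.1 = k.1 then (1 : ℝ) else 0) else 0) * (a d l : ℝ) = _
  rw [Fin.sum_univ_three]
  have e2 : ∑ l : Fin n, (if (2 : Fin 3) = 2 then (if l.1 = k.1 then (1 : ℝ) else 0) else 0) *
      (a 2 l : ℝ) = a 2 k := by
    rw [Finset.sum_eq_single k]
    · simp
    · intro l _ hl
      have : l.1 ≠ k.1 := fun h => hl (Fin.ext h)
      simp [this]
    · intro h; exact absurd (Finset.mem_univ _) h
  rw [e2]
  simp

/-- The quadratic algorithm: compute all `x - a - b` and all `c`. -/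
def upperAlg (n : ℕ) : HashAlg n where
  I := Unit
  fin := inferInstance
  info := fun _ _ => ()
  info_eq := fun _ _ _ _ => rfl
  step := fun _ t _ => if t < n ^ 2 then formXAB n t else formC n (t - n ^ 2)
  accept := fun _ E => ∃ p q, p < n ^ 2 ∧ q < n ∧ E p (n ^ 2 + q)

theorem upperAlg_values (a : Fin 3 → Fin n → ℤ) (x : ℤ) (T i : ℕ) (hi : i < T) :
    (upperAlg n).values a x T i =
      (if i < n ^ 2 then formXAB n i else formC n (i - n ^ 2)).eval a x := by
  induction T with
  | zero => omega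
  | succ T ih =>
    change (if i = T then _ else (upperAlg n).values a x T i) = _
    by_cases h : i = T
    · subst h
      rw [if_pos rfl]
      rfl
    · rw [if_neg h]
      exact ih (by omega)

theorem upper_bound (n : ℕ) (a : Fin 3 → Fin n → ℤ) (x : ℤ) :
    (upperAlg n).accepts a x (n ^ 2 + n) ↔ InSumset a x := by
  unfold HashAlg.accepts
  change (∃ p q, p < n ^ 2 ∧ q < n ∧ (p < n ^ 2 + n ∧ n ^ 2 + q < n ^ 2 + n ∧
    (upperAlg n).values a x (n ^ 2 + n) p = (upperAlg n).values a x (n ^ 2 + n) (n ^ 2 + q))) ↔ _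
  constructor
  · rintro ⟨p, q, hp, hq, _, _, he⟩
    have hn : 0 < n := by omega
    rw [upperAlg_values a x _ p (by omega), upperAlg_values a x _ (n ^ 2 + q) (by omega),
      if_pos hp, if_neg (by omega), Nat.add_sub_cancel_left] at he
    have h1 : p / n < n := Nat.div_lt_of_lt_mul (by rw [← sq]; exact hp)
    rw [eval_formXAB a x ⟨p / n, h1⟩ ⟨p % n, Nat.mod_lt _ hn⟩ p rfl rfl] at he
    have h2 := eval_formC a x ⟨q, hq⟩
    rw [h2] at he
    refine ⟨⟨p / n, h1⟩, ⟨p % n, Nat.mod_lt _ hn⟩, ⟨q, hq⟩, ?_⟩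
    have h3 : ((a 0 ⟨p / n, h1⟩ + a 1 ⟨p % n, Nat.mod_lt _ hn⟩ + a 2 ⟨q, hq⟩ : ℤ) : ℝ) =
        ((x : ℤ) : ℝ) := by
      push_cast
      linarith
    exact_mod_cast h3
  · rintro ⟨i, j, k, h⟩
    have hn : 0 < n := i.pos
    have hp : i.1 * n + j.1 < n ^ 2 := by
      have h1 := i.2
      have h2 := j.2
      have : (i.1 + 1) * n ≤ n * n := Nat.mul_le_mul h1 le_rfl
      rw [sq]
      rw [add_mul, one_mul] at this
      omega
    refine ⟨i.1 * n + j.1, k.1, hp, k.2, by omega, by have := k.2; omega, ?_⟩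
    rw [upperAlg_values a x _ _ (by omega),
      upperAlg_values a x _ (n ^ 2 + k.1) (by have := k.2; omega),
      if_pos hp, if_neg (by omega), Nat.add_sub_cancel_left]
    have hd : (i.1 * n + j.1) / n = i.1 := by
      rw [mul_comm, Nat.mul_add_div hn, Nat.div_eq_of_lt j.2, add_zero]
    have hm : (i.1 * n + j.1) % n = j.1 := by
      rw [mul_comm, Nat.mul_add_mod, Nat.mod_eq_of_lt j.2]
    rw [eval_formXAB a x i j _ hd hm, eval_formC a x k, ← h]
    push_cast
    ring

end Pool.Agent.H80.TS
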